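import Mathlib
import Pool.Agent.H8.Nine

set_option autoImplicit false

namespace Pool.Agent.Results.MP_295a7b_co.NineVertices

open Finset

theorem result : ∀ m : ℕ, 1 ≤ m → ∃ E : Finset (Finset (Fin (3 * (7 * m)))),
    (∀ e ∈ E, e.card = 3) ∧ E.card = (7 * m) ^ 3 + 1 ∧
    ∀ S : Finset (Fin (3 * (7 * m))), S.card = 9 → (E.filter (fun e => e ⊆ S)).card ≤ 27 := by
  intro m hm
  let φ : Fin (3 * (7 * m)) ≃ Fin 7 × Fin (3 * m) :=
    (finCongr (by ring)).trans finProdFinEquiv.symm
  let c : Fin (3 * (7 * m)) → Fin 7 := fun v => (φ v).1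
  have hc : ∀ i, (univ.filter (fun v => c v = i)).card = 3 * m := by
    intro i
    rw [card_equiv (t := ({i} : Finset (Fin 7)) ×ˢ (univ : Finset (Fin (3 * m)))) φ]
    · simp
    · intro v
      simp only [c, mem_filter, mem_univ, true_and, mem_product, mem_singleton, and_true]
  have h1 : (H8.Nine.H c).card = 13 * (3 * m) ^ 3 := by
    rw [H8.Nine.cardH, H8.Nine.cardT]
    simp only [hc, sum_const, smul_eq_mul]
    rw [show H8.Nine.F.card = 13 by decide]
    ring
  have h2 : (7 * m) ^ 3 + 1 ≤ (H8.Nine.H c).card := by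
    have : 1 ≤ m ^ 3 := Nat.one_le_pow _ _ hm
    rw [h1, mul_pow, mul_pow]
    omega
  obtain ⟨E, hE, cE⟩ := exists_subset_card_eq h2
  refine ⟨E, fun e he => H8.Nine.unif c e (hE he), cE, fun S hS => ?_⟩
  exact (card_le_card (filter_subset_filter _ hE)).trans (H8.Nine.sparse c S hS)

end Pool.Agent.Results.MP_295a7b_co.NineVertices
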